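import Mathlib
import Pool.Agent.W926.PS.Stm

/-!
Project PS: ranks of an injective key.
-/

namespace Pool.Agent.W214.PS

open Finset W926.PS

theorem rank : S_RANK := by
  intro n key hinj
  classical
  have hlt : ∀ x : Fin n, (univ.filter (fun y : Fin n => key y < key x)).card < n := by
    intro x
    have h1 : (univ.filter (fun y : Fin n => key y < key x)) ⊂ univ := by
      refine ⟨Finset.subset_univ _, fun h => ?_⟩
      have := h (Finset.mem_univ x)
      simp at this
    have := Finset.card_lt_card h1
    simpa using this
  have hmono : ∀ x y : Fin n, key x < key y →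
      (univ.filter (fun z : Fin n => key z < key x)).card <
        (univ.filter (fun z : Fin n => key z < key y)).card := by
    intro x y hxy
    apply Finset.card_lt_card
    refine ⟨fun z hz => ?_, fun h => ?_⟩
    · simp only [Finset.mem_filter, Finset.mem_univ, true_and] at hz ⊢
      exact hz.trans hxy
    · have : x ∈ univ.filter (fun z : Fin n => key z < key x) := h (by simpa using hxy)
      simp at this
  set f : Fin n → Fin n := fun x => ⟨(univ.filter (fun y : Fin n => key y < key x)).card, hlt x⟩
    with hf
  have hiff : ∀ x y, f x < f y ↔ key x < key y := by
    intro x y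
    constructor
    · intro h
      by_contra hc
      push Not at hc
      rcases hc.lt_or_eq with h1 | h1
      · exact absurd h (not_lt.mpr (le_of_lt (hmono _ _ h1)))
      · rw [hinj h1] at h
        exact lt_irrefl _ h
    · intro h
      exact hmono _ _ h
  have hfi : Function.Injective f := by
    intro x y hxy
    by_contra hne
    rcases lt_or_gt_of_ne (fun h => hne (hinj h) : key x ≠ key y) with h | h
    · exact absurd hxy (ne_of_lt ((hiff x y).2 h))
    · exact absurd hxy.symm (ne_of_lt ((hiff y x).2 h))
  exact ⟨Equiv.ofBijective f (Finite.injective_iff_bijective.1 hfi), fun x y => hiff x y⟩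

end Pool.Agent.W214.PS
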